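import Mathlib
import Pool.Agent.Run7.h241.EQ4
import Pool.Agent.Y920.EP.GalP
import Pool.Agent.Y86.EP.Kum
import Pool.Agent.Y279.EP.Up
import Pool.Agent.Y925.EP.Tower
import Pool.Agent.Y419.EP.Inert
import Pool.Agent.Y469.EP.Max

set_option autoImplicit false

/-! # Fields whose norm groups have at most `N` classes, `p` odd: a bound of order `N³`

Let `p` be an odd prime and `F` a field with a primitive `p`-th root of unity such that the norm
group of every extension `F(a^(1/p))` of degree `p` has at most `N` classes modulo `F*^p`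
(`F*/F*^p` may be infinite). A class of `F*/F*^p` is not rigid if it contains an element `a` such that
`a` is not a `p`-th power and `1 - a` is neither in `F*^p` nor in `a F*^p`.

* At most `2 N (N + 1)² + 58 p N²` classes are not rigid.
* There is a valuation ring `O` with `p ∈ O*`, `1 + m ⊆ F*^p` and at most `64 N² (N + 2 p)` classes
  of units. (`p ≤ N` unless `F* = F*^p`, so the bound is `192 N³` or better.)
* If `F*/F*^p` has more elements, then the maximal pro-`p` Galois group is the decomposition group
  of a valuation with nontrivial inertia, and the conclusion of the conjecture holds.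

The starting file `OddPrimes` has the bound `78 p² N⁵`.

Outline. For `w, y ∈ F*` write `w ≪ y` if `y + w ∈ y F*^p`, and `y ≤ z` if `w ≪ y` implies `w ≪ z`
unless `w` is in one of few classes, at most a multiple of `N²`; a unit is an element `y` with
`1 ≤ y ≤ 1`. As in the starting file, all classes that are not rigid contain units. Let `S` be the set
of the classes of the units `w ≪ 1`; it has at most a multiple of `p N²` elements, since roots of unity
are units with a bound which does not depend on their order (`root_unit`).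
* If `S` has at least `2 N²` elements, then for every unit `t` and for at least half of the small units
  `w` the unit `t w` is small, so that `S - S` contains the class of `t` often: there are at most
  `2 |S|` classes of units.
* If not, take units `y_1, ..., y_T` of different classes, `T = N²`, and for a unit `r` whose class `a`
  is not rigid the symmetric matrix of the classes of the elements `1 + y_l^p y_i^p r` of the norm group
  of `a^(1/p)`. It has at most `N` different entries, so that on average over the pairs `i ≠ j` there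
  is an entry `n` which occurs at the same place in the rows `i` and `j` (`rows`; in a graph at
  least as many ordered pairs of vertices are joined by walks of length two as by edges). Each of them
  gives a small unit of class `s = a - n + [y_i^p - y_j^p]`, and for fixed `i ≠ j` and `s` the class `a`
  is in the norm group of `a - n`. So there are at most about `N |S|` such classes `a`. -/

namespace Pool.Agent.Results.MP_600e55_nt.CubicBoundOdd

open Pool.Agent.Y920.EP

/-- the group of `p`-th powers of `F*` -/
def powers (F : Type) [Field F] (p : ℕ) : Subgroup Fˣ := (powMonoidHom p : Fˣ →* Fˣ).range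

open Polynomial in
/-- the norms to `F` of the units of the algebra `F[X]/(X^p - a)`: the norm group of the field
`F(a^(1/p))` if `a` is not a `p`-th power -/
noncomputable def normGroup {F : Type} [Field F] (p : ℕ) (a : Fˣ) : Subgroup Fˣ :=
  (Units.map (Algebra.norm F : AdjoinRoot (X ^ p - C (a : F)) →* F)).range

/-- the classes modulo `p`-th powers of the `a` such that `a` is not a `p`-th power and `1 - a` is
neither a `p`-th power nor `a` times a `p`-th power (and not zero) -/
def nonrigid (F : Type) [Field F] (p : ℕ) : Set (Fˣ ⧸ powers F p) :=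
  {c | ∃ a b : Fˣ, (a : Fˣ ⧸ powers F p) = c ∧ a ∉ powers F p ∧ (a : F) + b = 1 ∧
    b ∉ powers F p ∧ b / a ∉ powers F p}

/-- `K` is the compositum of the finite Galois extensions of `F` of `p`-power degree -/
def IsMaximalPExtension (p : ℕ) {F : Type} [Field F]
    (K : IntermediateField F (AlgebraicClosure F)) : Prop :=
  K = sSup {L : IntermediateField F (AlgebraicClosure F) |
    FiniteDimensional F L ∧ IsGalois F L ∧ ∃ k : ℕ, Module.finrank F L = p ^ k}

theorem result (p : ℕ) [Fact p.Prime] (hp2 : p ≠ 2) (F : Type) [Field F]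
    (hζ : ∃ ζ : F, IsPrimitiveRoot ζ p) (N : ℕ) (hN1 : 1 ≤ N)
    (hN : ∀ a : Fˣ, a ∉ powers F p →
      (powers F p).relIndex (normGroup p a) ≠ 0 ∧ (powers F p).relIndex (normGroup p a) ≤ N) :
    -- few classes are not rigid
    ((nonrigid F p).Finite ∧ (nonrigid F p).ncard ≤ 2 * N * (N + 1) ^ 2 + 58 * p * N ^ 2) ∧
    -- a valuation ring whose units have few classes and whose one-units are `p`-th powers
    (∃ (O : ValuationSubring F) (U : Subgroup Fˣ), O.unitGroup ≤ U ∧ powers F p ≤ U ∧
      (powers F p).relIndex U ≠ 0 ∧ (powers F p).relIndex U ≤ 64 * N ^ 2 * (N + 2 * p) ∧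
      (p : F)⁻¹ ∈ O ∧ ∀ x : F, x ∈ O → x⁻¹ ∉ O → ∃ y : F, y ^ p = 1 + x) ∧
    ((powers F p).index = 0 ∨ 64 * N ^ 2 * (N + 2 * p) < (powers F p).index →
      ∀ K : IntermediateField F (AlgebraicClosure F), IsMaximalPExtension p K →
      -- `Gal(K/F)` is the decomposition group of a valuation with nontrivial inertia
      (∃ (Γ : Type) (_ : LinearOrderedCommGroupWithZero Γ) (w : Valuation K Γ),
        (∀ (σ : K ≃ₐ[F] K) (x : K), w (σ x) ≤ 1 ↔ w x ≤ 1) ∧
        ∃ σ : K ≃ₐ[F] K, σ ≠ 1 ∧ ∀ x : K, w x ≤ 1 → w (σ x - x) < 1) ∧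
      -- the conclusion of Q1
      ∃ (n : ℕ) (H : Fin n → Subgroup (↥K ≃ₐ[F] ↥K)),
        (∀ i, IsClosed (H i : Set (↥K ≃ₐ[F] ↥K))) ∧
        (∀ (P : Type) [Group P] [Finite P], (∃ k : ℕ, Nat.card P = p ^ k) →
          ∀ φ : (i : Fin n) → (H i →* P), (∀ i, IsOpen ((φ i).ker : Set (H i))) →
            ∃! ψ : (↥K ≃ₐ[F] ↥K) →* P,
              IsOpen (ψ.ker : Set (↥K ≃ₐ[F] ↥K)) ∧
              ∀ i, ∀ x : H i, ψ (x : ↥K ≃ₐ[F] ↥K) = φ i x) ∧
        (∀ i,
          Nonempty (H i ≃ₜ* Multiplicative (PadicInt p)) ∨
          (∃ (Γ : Type) (_ : LinearOrderedCommGroupWithZero Γ) (w : Valuation (↥K) Γ),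
            (∀ σ : ↥K ≃ₐ[F] ↥K, σ ∈ H i ↔ ∀ x : ↥K, (w (σ x) ≤ 1 ↔ w x ≤ 1)) ∧
            ∃ σ ∈ H i, σ ≠ 1 ∧ ∀ x : ↥K, w x ≤ 1 → w (σ x - x) < 1) ∨
          (p = 2 ∧ Nat.card (H i) = 2))) := by
  have hp : p.Prime := Fact.out
  have hG : AllG := ⟨Pool.Agent.Y86.EP.t_KUM, Pool.Agent.Y279.EP.t_UP,
    Pool.Agent.Y925.EP.t_TOWER', Pool.Agent.Y419.EP.t_INERT', Pool.Agent.Y469.EP.t_MAX'⟩
  obtain ⟨⟨A, _, φ, hφ, hk, hf, hc⟩, U, O, h1, h2, h3, h4, h5⟩ :=
    Run7.h241.EQ.exists_ring p hp hp2 F hζ N hN1 hN
  refine ⟨?_, ⟨O, U, h4, h1, h2, h3, h5.1, h5.2.2⟩, ?_⟩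
  · -- the classes that are not rigid
    have hk' : φ.ker = powers F p := hk
    let ψ : Fˣ ⧸ powers F p → A := Quotient.lift φ (by
      intro a b hab
      have h1 : a⁻¹ * b ∈ powers F p := QuotientGroup.leftRel_apply.1 hab
      rw [← hk', MonoidHom.mem_ker, map_mul, map_inv] at h1
      exact (inv_mul_eq_one.1 h1))
    have hψ : ∀ a : Fˣ, ψ (a : Fˣ ⧸ powers F p) = φ a := fun _ => rfl
    have hinj : Function.Injective ψ := by
      intro c d hcd
      induction c using QuotientGroup.induction_on with
      | H a =>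
        induction d using QuotientGroup.induction_on with
        | H b =>
          rw [hψ, hψ] at hcd
          rw [QuotientGroup.eq, ← hk', MonoidHom.mem_ker, map_mul, map_inv, hcd, inv_mul_cancel]
    have hmap : ∀ c ∈ nonrigid F p, ψ c ∈ NR φ := by
      rintro c ⟨a, b, rfl, ha, hab, hb, hba⟩
      rw [← hk', MonoidHom.mem_ker] at ha hb hba
      rw [hψ]
      refine ⟨ha, a, b, rfl, hab, hb, fun e => hba ?_⟩
      rw [map_div, e, div_self']
    constructor
    · exact Set.Finite.of_finite_image (hf.subset (by rintro _ ⟨c, hc', rfl⟩; exact hmap c hc'))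
        hinj.injOn
    · exact (Set.ncard_le_ncard_of_injOn ψ hmap hinj.injOn hf).trans hc
  intro hbig K hK
  have hU : ∃ c : Fˣ, c ∉ U := by
    by_contra hc
    push Not at hc
    have : U = ⊤ := by
      rw [eq_top_iff]
      exact fun c _ => hc c
    rw [this, Subgroup.relIndex_top_right] at h2 h3
    rcases hbig with h | h
    · exact h2 h
    · exact absurd h3 (not_le.2 h)
  obtain ⟨c, hc⟩ := hU
  have hD : DecInert F K := decInert hG p hp hp2 F hζ O h5 ⟨c, ?_⟩ K hK
  · exact ⟨hD, efratP p F K hD⟩
  · rintro f ⟨h6, h7⟩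
    apply hc
    have h8 : c * f ^ p ∈ O.unitGroup := by
      rw [ValuationSubring.mem_unitGroup_iff]
      refine le_antisymm ((ValuationSubring.valuation_le_one_iff _ _).2 h6) ?_
      have h9 := (ValuationSubring.valuation_le_one_iff O _).2 h7
      rw [Units.val_inv_eq_inv_val, map_inv₀] at h9
      have h10 : O.valuation ((c * f ^ p : Fˣ) : F) ≠ 0 := by
        rw [Valuation.ne_zero_iff]
        exact Units.ne_zero _
      exact (inv_le_one₀ (zero_lt_iff.2 h10)).1 h9
    have h11 : f ^ p ∈ U := h1 ⟨f, rfl⟩
    have h12 := mul_mem (h4 h8) (inv_mem h11)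
    rwa [mul_inv_cancel_right] at h12

end Pool.Agent.Results.MP_600e55_nt.CubicBoundOdd
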