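import Mathlib
import Pool.Agent.Run7.h241.EF3

/-!
# Efrat's conjecture and the Steinberg symbols which are trivial on a subgroup, `p` odd

`F` is a field with a primitive `p`-th root of unity, `p` odd, and `F*/F*^p` has `p ^ n` elements.
Steinberg symbols are the bimultiplicative functions `c : F* × F* → ℤ/p` with `c(x,y) = 0` for
`x + y = 1`. For a group `F*^p ≤ I ≤ F*` of order `p ^ i` modulo `F*^p` let `N(I)` be the number of
the symbols which are trivial on `I × I`. Always `N(I) ≤ p ^ (n (n-1)/2 - i (i-1)/2)`, the number of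
all the alternating bimultiplicative functions which are trivial on `I × I`.

(1) If `N(I) > p ^ (n (n-1)/2 - i (i-1)/2 - (n - i))` for some `I` with `i ≥ 1`, then `F` has a
valuation ring `O` with `p ∈ O*`, `1 + m ⊆ F*^p`, `O* F*^p ≠ F*`, the group `O* F*^p / F*^p` has at
most `p ^ (n (n-1)/2 - i (i-1)/2 + i) / N(I)` elements, and the maximal pro-`p` Galois group of `F`
is the decomposition group of a valuation with nontrivial inertia, so that the conclusion of the
conjecture holds.

(2) This criterion is sharp: let `n ≥ 2`. The field has such a valuation ring if and only if the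
hypothesis of (1) holds for some `I`, if and only if `N(I) = p ^ (n (n-1)/2 - i (i-1)/2)` for some
`I` with `1 ≤ i < n`, if and only if for some `F*^p < I < F*` every alternating bimultiplicative
function which is trivial on `I × I` is a symbol. So the numbers `N(I)` have a gap: either `N(I)`
has the largest possible value for some `I ≠ F*`, or `N(I)` is at most the `p ^ (n - i)`-th part of
it for all `I` with `i ≥ 1`.

The case `i = 1` of (1) is the starting file `ManySymbols` (every symbol is trivial on cyclic groups).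
The proof uses the connected subspaces of that file, and its theorems that they can be joined: if
modulo the exterior square of `I` the relations `x ∧ (1 + x)` have rank less than `n - i`, then
`F*/F*^p` is not connected, and the maximal connected subspaces form a partition which respects
sums (`SymbolPartitions`).
-/

set_option autoImplicit false

open Module Submodule

namespace Pool.Agent.Results.MP_600e55_nt.SymbolsTrivialOnSubgroup

open Pool.Agent.Results.MP_600e55_nt.SymbolPartitions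
open Pool.Agent.N908.FR (Forms Rel Est W Forms mem_Forms)
open Run7.h241.EF

/-- the functions `c : F* × F* → ℤ/p` which are multiplicative in both arguments -/
def Bimultiplicative {F : Type} [Field F] {p : ℕ} (c : Fˣ → Fˣ → ZMod p) : Prop :=
  (∀ a b x : Fˣ, c (a * b) x = c a x + c b x) ∧ ∀ x a b : Fˣ, c x (a * b) = c x a + c x b

/-- `c(x,y) = 0` if `x + y = 1` -/
def Steinberg {F : Type} [Field F] {p : ℕ} (c : Fˣ → Fˣ → ZMod p) : Prop :=
  ∀ x y : Fˣ, (x : F) + y = 1 → c x y = 0

/-- `c` is trivial on `I × I` -/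
def TrivialOn {F : Type} [Field F] {p : ℕ} (c : Fˣ → Fˣ → ZMod p) (I : Subgroup Fˣ) : Prop :=
  ∀ a ∈ I, ∀ b ∈ I, c a b = 0

/-- the Steinberg symbols with values in `ℤ/p` which are trivial on `I × I` -/
def SymbolsTrivialOn (F : Type) [Field F] (p : ℕ) (I : Subgroup Fˣ) : Type :=
  {c : Fˣ → Fˣ → ZMod p // Bimultiplicative c ∧ Steinberg c ∧ TrivialOn c I}

theorem two_choose (n : ℕ) : 2 * (n * (n - 1) / 2) + n = n * n := by
  have h1 : Even (n * (n - 1)) := Nat.even_mul_pred_self n
  rw [mul_comm 2, Nat.div_mul_cancel h1.two_dvd]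
  rcases n with - | m
  · rfl
  · simp; ring

section

variable {p : ℕ} [Fact p.Prime] {F : Type} [Field F]
variable {V : Type} [AddCommGroup V] [Module (ZMod p) V] [FiniteDimensional (ZMod p) V]

theorem card_eq (hp2 : p ≠ 2) {q : Fˣ → V} (hq : ∀ a b, q (a * b) = q a + q b)
    (hs : Function.Surjective q) (hk : ∀ a, q a = 0 ↔ a ∈ powers F p) (I : Subgroup Fˣ) :
    Nat.card (SymbolsTrivialOn F p I) =
      p ^ finrank (ZMod p) (Forms (ZMod p) (fun x y => Est q x y ∨ Sq (sp (p := p) hq I) x y)) := by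
  rw [← card_symbols' hp2 hq hs hk]
  refine Nat.card_congr (Equiv.subtypeEquivRight fun c => ?_)
  exact ⟨fun h => ⟨⟨h.1.1, h.1.2, h.2.1⟩, h.2.2⟩, fun h => ⟨⟨h.1.1, h.1.2⟩, h.1.3, h.2⟩⟩

theorem finrank_sp {q : Fˣ → V} (hq : ∀ a b, q (a * b) = q a + q b)
    (hs : Function.Surjective q) (hk : ∀ a, q a = 0 ↔ a ∈ powers F p) {I : Subgroup Fˣ}
    (hI : powers F p ≤ I) {i : ℕ} (hi : (powers F p).relIndex I = p ^ i) :
    finrank (ZMod p) (sp (p := p) hq I) = i := by
  have h1 := Pool.Agent.N908.FR.relIndex_sg hq hs hk (sp (p := p) hq I)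
  rw [sg_sp hq hk hI, hi] at h1
  exact (Nat.pow_right_injective (Fact.out : p.Prime).two_le h1).symm

/-- the theorem for a given model `V` of the vector space `F*/F*^p` -/
theorem core (p : ℕ) [Fact p.Prime] (hp2 : p ≠ 2) (F : Type) [Field F]
    (hζ : ∃ ζ : F, IsPrimitiveRoot ζ p) (n : ℕ) (hn : (powers F p).index = p ^ n)
    (V : Type) [AddCommGroup V] [Module (ZMod p) V] [Finite V] (hV : Nat.card V = p ^ n)
    (q : Fˣ → V) (hq : ∀ a b, q (a * b) = q a + q b)
    (hs : Function.Surjective q) (hk : ∀ a, q a = 0 ↔ a ∈ powers F p) :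
    (∀ (I : Subgroup Fˣ) (i : ℕ), powers F p ≤ I → (powers F p).relIndex I = p ^ i → 1 ≤ i →
      p ^ (n * (n - 1) / 2 + i) <
        p ^ (i * (i - 1) / 2 + n) * Nat.card (SymbolsTrivialOn F p I) →
      (∃ O : ValuationSubring F, IsCompatible p O ∧
        (powers F p).relIndex (O.unitGroup ⊔ powers F p) *
          (p ^ (i * (i - 1) / 2) * Nat.card (SymbolsTrivialOn F p I)) ≤
            p ^ (n * (n - 1) / 2 + i)) ∧
      ∀ K : IntermediateField F (AlgebraicClosure F), IsMaximalPExtension p K →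
        IsDecompositionGroup (⊤ : Subgroup (↥K ≃ₐ[F] ↥K)) ∧ ConclusionOfQ1 p K) ∧
    (2 ≤ n → List.TFAE
      [∃ O : ValuationSubring F, IsCompatible p O,
       ∃ (I : Subgroup Fˣ) (i : ℕ), powers F p ≤ I ∧ (powers F p).relIndex I = p ^ i ∧ 1 ≤ i ∧
         p ^ (n * (n - 1) / 2 + i) <
           p ^ (i * (i - 1) / 2 + n) * Nat.card (SymbolsTrivialOn F p I),
       ∃ (I : Subgroup Fˣ) (i : ℕ), powers F p ≤ I ∧ (powers F p).relIndex I = p ^ i ∧ 1 ≤ i ∧
         i < n ∧ p ^ (i * (i - 1) / 2) * Nat.card (SymbolsTrivialOn F p I) =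
           p ^ (n * (n - 1) / 2),
       ∃ I : Subgroup Fˣ, powers F p < I ∧ I < ⊤ ∧ ∀ c : Fˣ → Fˣ → ZMod p,
         Bimultiplicative c → (∀ a, c a a = 0) → TrivialOn c I → Steinberg c]) := by
  have hp : p.Prime := Fact.out
  have hfin : (powers F p).index ≠ 0 := by
    rw [hn]
    exact (pow_pos hp.pos n).ne'
  have hdim : Module.finrank (ZMod p) V = n := by
    have h2 := Module.natCard_eq_pow_finrank (K := ZMod p) (V := V)
    rw [Nat.card_zmod, hV] at h2
    exact (Nat.pow_right_injective hp.two_le h2).symm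
  have hA : ∀ (I : Subgroup Fˣ) (i : ℕ), powers F p ≤ I → (powers F p).relIndex I = p ^ i →
      1 ≤ i → p ^ (n * (n - 1) / 2 + i) <
        p ^ (i * (i - 1) / 2 + n) * Nat.card (SymbolsTrivialOn F p I) →
      (∃ O : ValuationSubring F, IsCompatible p O ∧
        (powers F p).relIndex (O.unitGroup ⊔ powers F p) *
          (p ^ (i * (i - 1) / 2) * Nat.card (SymbolsTrivialOn F p I)) ≤
            p ^ (n * (n - 1) / 2 + i)) ∧
      ∀ K : IntermediateField F (AlgebraicClosure F), IsMaximalPExtension p K →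
        IsDecompositionGroup (⊤ : Subgroup (↥K ≃ₐ[F] ↥K)) ∧ ConclusionOfQ1 p K := by
    intro I i hI hi hi1 hlt
    have hJi := finrank_sp hq hs hk hI hi
    set J := sp (p := p) hq I with hJ
    rw [card_eq hp2 hq hs hk] at hlt ⊢
    set f := finrank (ZMod p) (Forms (ZMod p) (fun x y => Est q x y ∨ Sq J x y)) with hf
    have h1 := forms_sup_le (k := ZMod p) (Est q) J
    rw [hdim, ← hf] at h1
    have h2 := (W_dim J).1
    rw [hJi] at h2
    have h3 := two_choose n
    have h4 := two_choose i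
    rw [← pow_add] at hlt
    have h5 := (Nat.pow_lt_pow_iff_right hp.one_lt).1 hlt
    have hJ0 : J ≠ ⊥ := by
      intro h0
      rw [h0, finrank_bot] at hJi
      omega
    obtain ⟨⟨O, hO, hO'⟩, h6⟩ := main' hp2 hζ hfin hq hs hk J hJ0 (by
      rw [hdim, hJi]
      omega)
    refine ⟨⟨O, hO, ?_⟩, h6⟩
    rw [hJi] at hO'
    have e1 : finrank (ZMod p) (W J) = i * (i - 1) / 2 := by omega
    rw [← mul_assoc, ← e1]
    refine (Nat.mul_le_mul_right _ hO').trans ?_
    rw [← pow_add]
    refine Nat.pow_le_pow_right hp.pos ?_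
    omega
  refine ⟨hA, fun hn2 => ?_⟩
  tfae_have 2 → 1 := by
    rintro ⟨I, i, hI, hi, hi1, hlt⟩
    obtain ⟨⟨O, hO, -⟩, -⟩ := hA I i hI hi hi1 hlt
    exact ⟨O, hO⟩
  tfae_have 3 → 2 := by
    rintro ⟨I, i, hI, hi, hi1, hin, he⟩
    refine ⟨I, i, hI, hi, hi1, ?_⟩
    have e1 : p ^ (i * (i - 1) / 2 + n) * Nat.card (SymbolsTrivialOn F p I) =
        p ^ (n * (n - 1) / 2) * p ^ n := by
      rw [← he, pow_add]
      ring
    rw [e1, ← pow_add]
    exact Nat.pow_lt_pow_right hp.one_lt (by omega)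
  tfae_have 4 → 3 := by
    rintro ⟨I, hI, hIt, hc⟩
    have hI' := hI.le
    have hJi : ∃ i, (powers F p).relIndex I = p ^ i ∧
        finrank (ZMod p) (sp (p := p) hq I) = i := by
      have h1 := Pool.Agent.N908.FR.relIndex_sg hq hs hk (sp (p := p) hq I)
      rw [sg_sp hq hk hI'] at h1
      exact ⟨_, h1, rfl⟩
    obtain ⟨i, hi, hJi⟩ := hJi
    set J := sp (p := p) hq I with hJ
    have hJ0 : J ≠ ⊥ := by
      intro h0
      apply hI.ne
      refine le_antisymm hI' fun a ha => ?_
      have h1 : q a ∈ J := ⟨a, ha, rfl⟩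
      rw [h0, mem_bot] at h1
      exact (hk a).1 h1
    have hJt : J ≠ ⊤ := by
      intro h0
      apply hIt.ne
      rw [Subgroup.eq_top_iff']
      intro a
      rw [← q_mem_sp hq hk hI', ← hJ, h0]
      trivial
    have hi1 : 1 ≤ i := by
      rw [← hJi]
      exact Pool.Agent.N908.FR.fr_pos hJ0
    have hin : i < n := by
      rw [← hJi, ← hdim]
      exact finrank_lt hJt
    refine ⟨I, i, hI', hi, hi1, hin, ?_⟩
    have hsub : Forms (ZMod p) (Sq J) ≤
        Forms (ZMod p) (fun x y => Est q x y ∨ Sq J x y) := by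
      intro β hβ
      have hβ' := mem_Forms.1 hβ
      have hm1 : q (-1) = 0 := (hk _).2 (Pool.Agent.N908.FR.neg_one_mem hp2)
      have h1 := hc (fun a b => β (q a) (q b))
        ⟨fun a b x => by simp only [hq, map_add, LinearMap.add_apply],
          fun x a b => by simp only [hq, map_add]⟩ (fun a => hβ'.1 _)
        (fun a ha b hb => hβ'.2 _ _ ⟨⟨a, ha, rfl⟩, ⟨b, hb, rfl⟩⟩)
      refine mem_Forms.2 ⟨hβ'.1, ?_⟩
      rintro x y (⟨a, b, hab, rfl, rfl⟩ | h)
      · have h2 := h1 (-a) b (by rw [hab, Units.val_neg]; ring)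
        have h3 : q (-a) = q a := by
          rw [show -a = (-1) * a by simp, hq, hm1, zero_add]
        simp only [h3] at h2
        exact h2
      · exact hβ'.2 x y h
    have h1 := finrank_mono hsub
    have h2 := forms_sq_ge J
    have h3 := forms_sup_le (k := ZMod p) (Est q) J
    have h4 := (W_dim J).1
    have h5 : finrank (ZMod p) (W J) ≤ finrank (ZMod p) (Rel (k := ZMod p) (Est q) ⊤ ⊔ W J :
        Submodule (ZMod p) (Dual (ZMod p) V →ₗ[ZMod p] V)) := finrank_mono le_sup_right
    rw [card_eq hp2 hq hs hk, ← hJ, ← pow_add]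
    rw [hdim] at h2 h3
    rw [hJi] at h2 h4
    have h6 := two_choose n
    have h7 := two_choose i
    congr 1
    omega
  tfae_have 1 → 4 := by
    rintro ⟨O, hO⟩
    set U := O.unitGroup ⊔ powers F p with hU
    have hUt : sp (p := p) hq U ≠ ⊤ := by
      intro h0
      apply hO.ne_top
      rw [Subgroup.eq_top_iff']
      intro a
      rw [← hU, ← q_mem_sp hq hk le_sup_right, h0]
      trivial
    -- a subspace between
    obtain ⟨J, hJU, hJ0, hJt⟩ : ∃ J : Submodule (ZMod p) V, sp (p := p) hq U ≤ J ∧ J ≠ ⊥ ∧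
        J ≠ ⊤ := by
      by_cases h0 : sp (p := p) hq U = ⊥
      · obtain ⟨v, hv⟩ : ∃ v : V, v ≠ 0 := by
          by_contra hcon
          push Not at hcon
          have : finrank (ZMod p) V = 0 := by
            rw [finrank_zero_iff]
            exact ⟨fun a b => (hcon a).trans (hcon b).symm⟩
          omega
        refine ⟨span (ZMod p) {v}, by rw [h0]; exact bot_le, ?_, ?_⟩
        · rwa [Ne, span_singleton_eq_bot]
        · intro h1
          have h2 := finrank_span_singleton (K := ZMod p) hv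
          rw [h1, finrank_top] at h2
          omega
      · exact ⟨_, le_rfl, h0, hUt⟩
    have hle : powers F p ≤ Pool.Agent.N908.FR.sg hq J := fun a ha => by
      rw [Pool.Agent.N908.FR.mem_sg, (hk a).2 ha]
      exact zero_mem _
    refine ⟨Pool.Agent.N908.FR.sg hq J, lt_of_le_of_ne hle fun h0 => hJ0 ?_,
      lt_top_iff_ne_top.2 fun h0 => hJt ?_, fun c h1 h2 h3 x y hxy => ?_⟩
    · rw [eq_bot_iff]
      intro v hv
      obtain ⟨a, rfl⟩ := hs v
      have h1 : a ∈ powers F p := by
        rw [h0]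
        exact hv
      exact (mem_bot _).2 ((hk a).2 h1)
    · rw [eq_top_iff]
      intro v _
      obtain ⟨a, rfl⟩ := hs v
      rw [← Pool.Agent.N908.FR.mem_sg hq, h0]
      trivial
    · refine alt_of_ring hp2 O hO ⟨h1.1, h1.2, h2⟩ (fun a ha b hb => h3 a ?_ b ?_) x y hxy
      · exact hJU ⟨a, Subgroup.mem_sup_left ha, rfl⟩
      · exact hJU ⟨b, Subgroup.mem_sup_left hb, rfl⟩
  tfae_finish

end

theorem result (p : ℕ) [Fact p.Prime] (hp2 : p ≠ 2) (F : Type) [Field F]
    (hζ : ∃ ζ : F, IsPrimitiveRoot ζ p) (n : ℕ) (hn : (powers F p).index = p ^ n) :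
    -- (1) many symbols which are trivial on `I × I`
    (∀ (I : Subgroup Fˣ) (i : ℕ), powers F p ≤ I → (powers F p).relIndex I = p ^ i → 1 ≤ i →
      p ^ (n * (n - 1) / 2 + i) <
        p ^ (i * (i - 1) / 2 + n) * Nat.card (SymbolsTrivialOn F p I) →
      (∃ O : ValuationSubring F, IsCompatible p O ∧
        (powers F p).relIndex (O.unitGroup ⊔ powers F p) *
          (p ^ (i * (i - 1) / 2) * Nat.card (SymbolsTrivialOn F p I)) ≤
            p ^ (n * (n - 1) / 2 + i)) ∧
      ∀ K : IntermediateField F (AlgebraicClosure F), IsMaximalPExtension p K →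
        IsDecompositionGroup (⊤ : Subgroup (↥K ≃ₐ[F] ↥K)) ∧ ConclusionOfQ1 p K) ∧
    -- (2) the criterion is sharp, and there is a gap
    (2 ≤ n → List.TFAE
      [∃ O : ValuationSubring F, IsCompatible p O,
       ∃ (I : Subgroup Fˣ) (i : ℕ), powers F p ≤ I ∧ (powers F p).relIndex I = p ^ i ∧ 1 ≤ i ∧
         p ^ (n * (n - 1) / 2 + i) <
           p ^ (i * (i - 1) / 2 + n) * Nat.card (SymbolsTrivialOn F p I),
       ∃ (I : Subgroup Fˣ) (i : ℕ), powers F p ≤ I ∧ (powers F p).relIndex I = p ^ i ∧ 1 ≤ i ∧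
         i < n ∧ p ^ (i * (i - 1) / 2) * Nat.card (SymbolsTrivialOn F p I) =
           p ^ (n * (n - 1) / 2),
       ∃ I : Subgroup Fˣ, powers F p < I ∧ I < ⊤ ∧ ∀ c : Fˣ → Fˣ → ZMod p,
         Bimultiplicative c → (∀ a, c a a = 0) → TrivialOn c I → Steinberg c]) := by
  have hp : p.Prime := Fact.out
  have hfin : (powers F p).index ≠ 0 := by
    rw [hn]
    exact (pow_pos hp.pos n).ne'
  let iG : AddCommGroup (Additive (Fˣ ⧸ powers F p)) := inferInstance
  have hz : ∀ x : Additive (Fˣ ⧸ powers F p), p • x = 0 := fun x => by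
    obtain ⟨a, ha⟩ := QuotientGroup.mk_surjective (Additive.toMul x)
    have h1 : p • x = Additive.ofMul ((QuotientGroup.mk a : Fˣ ⧸ powers F p) ^ p) := by
      rw [ha]
      rfl
    rw [h1, ofMul_eq_zero, ← QuotientGroup.mk_pow, QuotientGroup.eq_one_iff]
    exact ⟨a, rfl⟩
  letI : Module (ZMod p) (Additive (Fˣ ⧸ powers F p)) := AddCommGroup.zmodModule hz
  have hFin : Finite (Additive (Fˣ ⧸ powers F p)) := by
    have : (powers F p).FiniteIndex := ⟨hfin⟩
    exact inferInstanceAs (Finite (Fˣ ⧸ powers F p))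
  refine core p hp2 F hζ n hn (Additive (Fˣ ⧸ powers F p)) ?_
    (fun a => Additive.ofMul (QuotientGroup.mk a)) (fun a b => rfl) ?_ ?_
  · rw [← hn]
    rfl
  · intro x
    obtain ⟨a, ha⟩ := QuotientGroup.mk_surjective (Additive.toMul x)
    exact ⟨a, congrArg Additive.ofMul ha⟩
  · intro a
    change Additive.ofMul (QuotientGroup.mk a : Fˣ ⧸ powers F p) = 0 ↔ _
    rw [ofMul_eq_zero, QuotientGroup.eq_one_iff]

end Pool.Agent.Results.MP_600e55_nt.SymbolsTrivialOnSubgroup
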